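import Pool.Agent.W477.GM.Stms

/-!
# GM-HIGH: the power sets are bounded
-/

set_option maxHeartbeats 1000000
set_option linter.all false

namespace Pool.Agent.W477.GM.W856High

open Pool.Agent.W477.GM

section

variable {C : Type} [PartialOrder C] [OrderTop C] {L : C → ℕ∞}

/-! ### restriction -/

theorem rs_c (K : J → Prop) (p : Cn C L) : (rs K p).c = p.c := rfl

theorem rs_len_pos {K : J → Prop} {p : Cn C L} {j : J} (h : K j) : (rs K p).len j = p.len j := by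
  simp [rs, h]

theorem rs_len_neg {K : J → Prop} {p : Cn C L} {j : J} (h : ¬ K j) : (rs K p).len j = 0 := by
  simp [rs, h]

theorem rs_bit_pos {K : J → Prop} {p : Cn C L} {j : J} (h : K j) (o : Ordinal.{0}) :
    (rs K p).bit j o = p.bit j o := by
  simp [rs, h]

theorem rs_fix {K : J → Prop} {p : Cn C L} (h : ∀ j, ¬ K j → p.len j = 0) : rs K p = p := by
  refine Cn.ext' rfl (fun j => ?_) (fun j o ho => ?_)
  · by_cases hj : K j
    · exact rs_len_pos hj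
    · rw [rs_len_neg hj, h j hj]
  · by_cases hj : K j
    · exact rs_bit_pos hj o
    · rw [rs_len_neg hj] at ho
      exact absurd ho (not_lt.2 zero_le)

theorem rs_supp {K : J → Prop} {p : Cn C L} (h : rs K p = p) (j : J) (hj : ¬ K j) :
    p.len j = 0 := by
  rw [← h]
  exact rs_len_neg hj

/-- a flip by `z`, zero on `K`, fixes the conditions supported in `K` -/
theorem fl_fix {K : J → Prop} {z : J → Ordinal.{0} → Bool} {u : Cn C L}
    (hz : ∀ j, K j → ∀ o, z j o = false) (hu : rs K u = u) : fl z u = u := by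
  refine Cn.ext' rfl (fun j => rfl) (fun j o ho => ?_)
  have ho' : o < u.len j := ho
  by_cases hj : K j
  · simp [fl, ho', hz j hj o]
  · rw [rs_supp hu j hj] at ho'
    exact absurd ho' (not_lt.2 zero_le)

/-! ### another value of `c` -/

/-- the condition with `c = c0` and the sequences of `u` -/
noncomputable def chg (c0 : C) (u : Cn C L) : Cn C L := mg (fun _ => False) (cz c0) u

theorem chg_c (c0 : C) (u : Cn C L) : (chg c0 u).c = c0 := rfl

theorem chg_len {c0 : C} {u : Cn C L} {j : J} (h : u.len j ≠ 0 → (j.2.1 : ℕ∞) < L c0) :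
    (chg c0 u).len j = u.len j := by
  by_cases h' : (j.2.1 : ℕ∞) < L c0
  · simp [chg, mg, cz, h']
  · have : u.len j = 0 := by
      by_contra hne
      exact h' (h hne)
    simp [chg, mg, cz, h', this]

theorem chg_bit {c0 : C} {u : Cn C L} {j : J} (h : (j.2.1 : ℕ∞) < L c0) (o : Ordinal.{0}) :
    (chg c0 u).bit j o = u.bit j o := by
  simp [chg, mg, cz, h]

/-! ### merging -/

theorem mg_len_pos {K : J → Prop} {u t : Cn C L} {j : J} (h : K j) :
    (mg K u t).len j = u.len j := by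
  simp [mg, h]

theorem mg_len_neg {K : J → Prop} {u t : Cn C L} {j : J} (h : ¬ K j) (h' : (j.2.1 : ℕ∞) < L u.c) :
    (mg K u t).len j = t.len j := by
  simp [mg, h, h']

theorem mg_len_zero {K : J → Prop} {u t : Cn C L} {j : J} (h : ¬ K j) (h' : t.len j = 0) :
    (mg K u t).len j = 0 := by
  by_cases h2 : (j.2.1 : ℕ∞) < L u.c
  · simp [mg, h, h2, h']
  · simp [mg, h, h2]

theorem mg_bit_pos {K : J → Prop} {u t : Cn C L} {j : J} (h : K j) (o : Ordinal.{0}) :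
    (mg K u t).bit j o = u.bit j o := by
  simp [mg, h]

theorem mg_bit_neg {K : J → Prop} {u t : Cn C L} {j : J} (h : ¬ K j) (h' : (j.2.1 : ℕ∞) < L u.c)
    (o : Ordinal.{0}) : (mg K u t).bit j o = t.bit j o := by
  simp [mg, h, h']

theorem fmem_mk {P : Type 1} [PartialOrder P] [OrderTop P] (x : Nm P) (ι : Type)
    (W : ι → P → Prop) (y : ι → Nm P) (p : P) : fmem x (.mk ι W y) p ↔
      ∀ q, q ≤ p → ∃ r, r ≤ q ∧ ∃ j, Lab (W j) r ∧ feq x (y j) r := Iff.rfl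

theorem liv_mk {P : Type 1} [PartialOrder P] [OrderTop P] (S : SysData P) (a : Ordinal.{0})
    (ι : Type) (W : ι → P → Prop) (y : ι → Nm P) : Liv S a (.mk ι W y) ↔
      (∀ i u, W i u → S.rho a u = u) ∧ ∀ i, Liv S a (y i) := by
  rw [Liv]

theorem hs_mk {P : Type 1} [PartialOrder P] [OrderTop P] (S : SysData P)
    (ι : Type) (W : ι → P → Prop) (y : ι → Nm P) : HS S (.mk ι W y) ↔
      (∃ a, ∀ i u, W i u → S.rho a u = u) ∧
      (∃ e, ∀ g, g ∈ S.fix e → ∀ p, feq (act g (.mk ι W y)) (.mk ι W y) p) ∧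
      ∀ i, HS S (y i) := by
  rw [HS]

/-! ### the names -/

/-- the coordinates below `b` -/
def Kb (b : Ordinal.{0}) : J → Prop := fun j => j.1 < b

/-- membership in two names -/
def BB (w x y' : Nm (Cn C L)) (r : Cn C L) : Prop := fmem y' w r ∧ fmem y' x r

/-- the relation given by `t` -/
def QA (b : Ordinal.{0}) (c0 : C) {ι : Type} (y : ι → Nm (Cn C L)) (w x : Nm (Cn C L)) {Kc : Type}
    (ec : Kc → Cn C L) (t : Cn C L) (i : ι) (k : Kc) : Prop :=
  rs (Kb b) (ec k) = ec k ∧ (ec k).c ≤ c0 ∧ BB w x (y i) (mg (Kb b) (ec k) t)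

/-- the name given by a relation -/
def zN (b : Ordinal.{0}) {ι : Type} (y : ι → Nm (Cn C L)) {Kc : Type}
    (ec : Kc → Cn C L) (Q : ι → Kc → Prop) : Nm (Cn C L) :=
  .mk ι (fun i u => ∃ k, Q i k ∧ ec k = u ∧ rs (Kb b) u = u) y

theorem BB_mono (EQ : EqF (Cn C L)) {w x y' : Nm (Cn C L)} {r r' : Cn C L} (h : r' ≤ r)
    (hB : BB w x y' r) : BB w x y' r' := ⟨EQ.mmono _ _ _ _ h hB.1, EQ.mmono _ _ _ _ h hB.2⟩

theorem BB_congr (EQ : EqF (Cn C L)) {w x y' y'' : Nm (Cn C L)} {r : Cn C L} (h : feq y' y'' r)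
    (hB : BB w x y' r) : BB w x y'' r :=
  ⟨EQ.mcongr _ _ _ _ _ h (EQ.refl _ _) hB.1, EQ.mcongr _ _ _ _ _ h (EQ.refl _ _) hB.2⟩

theorem c1 (EQ : EqF (Cn C L)) (SA : SysAx (sysC C L))
    (DEC : ∀ (x y : Nm (Cn C L)) p a, Liv (sysC C L) a x → Liv (sysC C L) a y → feq x y p →
      feq x y ((sysC C L).rho a p))
    (MG : MgF C L) (b : Ordinal.{0}) (c0 : C) (ι : Type) (U : ι → Cn C L → Prop)
    (y : ι → Nm (Cn C L)) (hyb : ∀ i, Liv (sysC C L) b (y i)) (w : Nm (Cn C L)) (Kc : Type)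
    (ec : Kc → Cn C L) (hcov : ∀ p, rs (Kb b) p = p → ∃ k, ec k = p) (t : Cn C L)
    (y' : Nm (Cn C L)) (hy' : Liv (sysC C L) b y') (s : Cn C L) (hs : rs (Kb b) s = s) :
    fmem y' (zN b y ec (QA b c0 y w (.mk ι U y) ec t)) s ↔
      ∀ s', s' ≤ s → rs (Kb b) s' = s' → ∃ s'', s'' ≤ s' ∧ rs (Kb b) s'' = s'' ∧ s''.c ≤ c0 ∧
        BB w (.mk ι U y) y' (mg (Kb b) s'' t) := by
  have hmono : ∀ p q : Cn C L, p ≤ q → rs (Kb b) p ≤ rs (Kb b) q := SA.mono b
  have hrr : ∀ p : Cn C L, rs (Kb b) (rs (Kb b) p) = rs (Kb b) p := fun p => SA.rho_rho b b p le_rfl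
  have hle : ∀ p : Cn C L, p ≤ rs (Kb b) p := SA.le_rho b
  unfold zN
  constructor
  · intro h s' hs' hs's
    obtain ⟨r, hr, i, ⟨u, ⟨k, hQ, hku, hu⟩, hru⟩, hf⟩ := (fmem_mk _ _ _ _ _).1 h s' hs'
    obtain ⟨q1, q2, q3⟩ := hQ
    have hle1 : rs (Kb b) r ≤ ec k := by
      have := hmono _ _ hru
      rw [hu, ← hku] at this
      exact this
    refine ⟨rs (Kb b) r, ?_, hrr r, ?_, ?_⟩
    · have := hmono _ _ hr
      rw [hs's] at this
      exact this
    · exact hle1.1.trans q2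
    · have hf2 : feq y' (y i) (rs (Kb b) r) := DEC y' (y i) r b hy' (hyb i) hf
      have hB1 : BB w (.mk ι U y) (y i) (mg (Kb b) (rs (Kb b) r) t) :=
        BB_mono EQ (MG.mono _ _ _ _ _ hle1 le_rfl) q3
      have hle2 : mg (Kb b) (rs (Kb b) r) t ≤ rs (Kb b) r := MG.le_u _ _ _ (hrr r)
      exact BB_congr EQ (EQ.symm _ _ _ (EQ.mono _ _ _ _ hle2 hf2)) hB1
  · intro h
    rw [fmem_mk]
    intro q hq
    obtain ⟨s'', h1, h2, h3, h4⟩ := h (rs (Kb b) q) (by
      have := hmono _ _ hq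
      rw [hs] at this
      exact this) (hrr q)
    obtain ⟨r, hr, i, _, hf⟩ := (fmem_mk _ _ _ _ _).1 h4.2 _ le_rfl
    have e1 : rs (Kb b) r ≤ s'' := by
      have := hmono _ _ hr
      rw [MG.rs, h2] at this
      exact this
    have hf2 : feq y' (y i) (rs (Kb b) r) := DEC y' (y i) r b hy' (hyb i) hf
    have hle2 : mg (Kb b) (rs (Kb b) r) t ≤ rs (Kb b) r := MG.le_u _ _ _ (hrr r)
    have hB1 : BB w (.mk ι U y) y' (mg (Kb b) (rs (Kb b) r) t) :=
      BB_mono EQ (MG.mono _ _ _ _ _ e1 le_rfl) h4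
    have hB2 : BB w (.mk ι U y) (y i) (mg (Kb b) (rs (Kb b) r) t) :=
      BB_congr EQ (EQ.mono _ _ _ _ hle2 hf2) hB1
    obtain ⟨k, hk⟩ := hcov (rs (Kb b) r) (hrr r)
    have hle3 : mg (Kb b) (rs (Kb b) r) q ≤ rs (Kb b) r := MG.le_u _ _ _ (hrr r)
    refine ⟨mg (Kb b) (rs (Kb b) r) q, MG.le_q _ _ _ (e1.trans h1), i,
      ⟨rs (Kb b) r, ⟨k, ⟨?_, ?_, ?_⟩, hk, hrr r⟩, hle3⟩, EQ.mono _ _ _ _ hle3 hf2⟩
    · rw [hk]
      exact hrr r
    · rw [hk]
      exact e1.1.trans h3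
    · rw [hk]
      exact hB2

theorem c2 (EQ : EqF (Cn C L)) (AC : ActF (Cn C L)) (SA : SysAx (sysC C L))
    (HF : HsF (Cn C L) (sysC C L))
    (DEC : ∀ (x y : Nm (Cn C L)) p a, Liv (sysC C L) a x → Liv (sysC C L) a y → feq x y p →
      feq x y ((sysC C L).rho a p))
    (DECm : ∀ (x y : Nm (Cn C L)) p a, Liv (sysC C L) a x → Liv (sysC C L) a y → fmem x y p →
      fmem x y ((sysC C L).rho a p))
    (MG : MgF C L) (b : Ordinal.{0}) (c0 : C) (ι : Type) (U : ι → Cn C L → Prop)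
    (y : ι → Nm (Cn C L)) (hyb : ∀ i, Liv (sysC C L) b (y i)) (w : Nm (Cn C L)) (Kc : Type)
    (ec : Kc → Cn C L) (hcov : ∀ p, rs (Kb b) p = p → ∃ k, ec k = p) (t : Cn C L)
    (e : Finset (Ordinal.{0} × ℕ))
    (hsup : ∀ j, t.len j ≠ 0 → (j.1, j.2.1) ∈ e)
    (hw : ∀ g, g ∈ (sysC C L).fix e → ∀ p, feq (act g w) w p)
    (hx : ∀ g, g ∈ (sysC C L).fix e → ∀ p, feq (act g (.mk ι U y)) (.mk ι U y) p)
    (g : Cn C L ≃o Cn C L) (hg : g ∈ (sysC C L).fix e)
    (y' : Nm (Cn C L)) (hy' : Liv (sysC C L) b y') (s : Cn C L)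
    (h : fmem y' (zN b y ec (QA b c0 y w (.mk ι U y) ec t)) s) :
    fmem (act g y') (zN b y ec (QA b c0 y w (.mk ι U y) ec t)) (g s) := by
  have hrr : ∀ p : Cn C L, rs (Kb b) (rs (Kb b) p) = rs (Kb b) p := fun p => SA.rho_rho b b p le_rfl
  have hle : ∀ p : Cn C L, p ≤ rs (Kb b) p := SA.le_rho b
  have hgG : g ∈ (sysC C L).G := SA.fsub e g hg
  have hra : ∀ p : Cn C L, rs (Kb b) (g p) = g (rs (Kb b) p) := SA.rho_act g hgG b
  have hzl : Liv (sysC C L) b (zN b y ec (QA b c0 y w (.mk ι U y) ec t)) := by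
    unfold zN
    rw [liv_mk]
    refine ⟨?_, hyb⟩
    rintro i u ⟨k, _, _, hu⟩
    exact hu
  have h1 : fmem y' (zN b y ec (QA b c0 y w (.mk ι U y) ec t)) (rs (Kb b) s) :=
    DECm _ _ s b hy' hzl h
  have h2 := (c1 EQ SA DEC MG b c0 ι U y hyb w Kc ec hcov t y' hy' (rs (Kb b) s) (hrr s)).1 h1
  have hy2 : Liv (sysC C L) b (act g y') := HF.livact g hgG b y' hy'
  have h3 : fmem (act g y') (zN b y ec (QA b c0 y w (.mk ι U y) ec t)) (g (rs (Kb b) s)) := by
    refine (c1 EQ SA DEC MG b c0 ι U y hyb w Kc ec hcov t (act g y') hy2 (g (rs (Kb b) s))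
      (by rw [hra, hrr])).2 ?_
    intro s' hs' hs's
    have k1 : g.symm s' ≤ rs (Kb b) s := by
      rw [OrderIso.symm_apply_le]
      exact hs'
    have k2 : rs (Kb b) (g.symm s') = g.symm s' := by
      have := hra (g.symm s')
      rw [OrderIso.apply_symm_apply, hs's] at this
      have k3 := congrArg g.symm this
      rw [OrderIso.symm_apply_apply] at k3
      exact k3.symm
    obtain ⟨s2, m1, m2, m3, m4⟩ := h2 (g.symm s') k1 k2
    obtain ⟨z, _, hz, hgz⟩ := hg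
    have hgs : g (mg (Kb b) s2 t) = mg (Kb b) (g s2) t := by
      rw [hgz, hgz]
      refine MG.flip _ _ _ _ ?_
      intro j _ hj o
      exact hz j (hsup j hj) o
    refine ⟨g s2, ?_, ?_, ?_, ?_⟩
    · rw [← OrderIso.le_symm_apply]
      exact m1
    · rw [hra, m2]
    · rw [hgz]
      exact m3
    · have hg' : g ∈ (sysC C L).fix e := ⟨z, by assumption, hz, hgz⟩
      rw [← hgs]
      refine ⟨?_, ?_⟩
      · have := (AC.fmem g y' w (mg (Kb b) s2 t)).2 m4.1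
        exact EQ.mcongr _ _ _ _ _ (EQ.refl _ _) (hw g hg' _) this
      · have := (AC.fmem g y' (.mk ι U y) (mg (Kb b) s2 t)).2 m4.2
        exact EQ.mcongr _ _ _ _ _ (EQ.refl _ _) (hx g hg' _) this
  exact EQ.mmono _ _ _ _ (g.monotone (hle s)) h3

/-- the coordinates of `e` not below `b` -/
def Tb (b : Ordinal.{0}) (e : Finset (Ordinal.{0} × ℕ)) : J → Prop :=
  fun j => b ≤ j.1 ∧ (j.1, j.2.1) ∈ e

theorem mg_eq (hC : CAx C L) (b : Ordinal.{0}) (e : Finset (Ordinal.{0} × ℕ)) (c0 : C)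
    (r : Cn C L) (hrc : r.c ≤ c0) (hL : ∀ β n, (β, n) ∈ e → (n : ℕ∞) < L c0) :
    mg (Kb b) (rs (Kb b) r) (chg c0 (rs (Tb b e) r)) =
      rs (fun j => j.1 < b ∨ (j.1, j.2.1) ∈ e) r := by
  have hch : ∀ j, (chg c0 (rs (Tb b e) r)).len j = (rs (Tb b e) r).len j := by
    intro j
    refine chg_len (fun h => ?_)
    by_cases hT : Tb b e j
    · exact hL _ _ hT.2
    · exact absurd (rs_len_neg hT) h
  refine Cn.ext' rfl (fun j => ?_) (fun j o ho => ?_)
  · by_cases hj : Kb b j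
    · rw [mg_len_pos hj, rs_len_pos hj, rs_len_pos (K := fun j : J => j.1 < b ∨ (j.1, j.2.1) ∈ e)
        (Or.inl hj)]
    · by_cases he : (j.1, j.2.1) ∈ e
      · have hT : Tb b e j := ⟨not_lt.1 hj, he⟩
        have hl : (j.2.1 : ℕ∞) < L (rs (Kb b) r).c :=
          lt_of_lt_of_le (hL _ _ he) (hC.anti _ _ hrc)
        rw [mg_len_neg hj hl, hch, rs_len_pos hT,
          rs_len_pos (K := fun j : J => j.1 < b ∨ (j.1, j.2.1) ∈ e) (Or.inr he)]
      · have hT : ¬ Tb b e j := fun h => he h.2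
        rw [mg_len_zero hj (by rw [hch, rs_len_neg hT]),
          rs_len_neg (K := fun j : J => j.1 < b ∨ (j.1, j.2.1) ∈ e)]
        rintro (h | h)
        · exact hj h
        · exact he h
  · by_cases hj : Kb b j
    · rw [mg_bit_pos hj, rs_bit_pos hj, rs_bit_pos (K := fun j : J => j.1 < b ∨ (j.1, j.2.1) ∈ e)
        (Or.inl hj)]
    · by_cases he : (j.1, j.2.1) ∈ e
      · have hT : Tb b e j := ⟨not_lt.1 hj, he⟩
        have hl : (j.2.1 : ℕ∞) < L (rs (Kb b) r).c :=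
          lt_of_lt_of_le (hL _ _ he) (hC.anti _ _ hrc)
        rw [mg_bit_neg hj hl, chg_bit (hL _ _ he), rs_bit_pos hT,
          rs_bit_pos (K := fun j : J => j.1 < b ∨ (j.1, j.2.1) ∈ e) (Or.inr he)]
      · have hT : ¬ Tb b e j := fun h => he h.2
        rw [mg_len_zero hj (by rw [hch, rs_len_neg hT])] at ho
        exact absurd ho (not_lt.2 zero_le)

theorem chg_le (b : Ordinal.{0}) (e : Finset (Ordinal.{0} × ℕ)) (c0 : C)
    (r t : Cn C L) (hrt : r ≤ t) (htc : t.c = c0) (hts : ∀ j, ¬ Tb b e j → t.len j = 0)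
    (hL : ∀ β n, (β, n) ∈ e → (n : ℕ∞) < L c0) : chg c0 (rs (Tb b e) r) ≤ t := by
  rw [Cn.le_def]
  refine ⟨htc.ge, fun j => ?_⟩
  by_cases hT : Tb b e j
  · have hl := hL _ _ hT.2
    have h1 : (chg c0 (rs (Tb b e) r)).len j = r.len j := by
      rw [chg_len (fun _ => hl), rs_len_pos hT]
    refine ⟨?_, fun o ho => ?_⟩
    · rw [h1]
      exact (hrt.2 j).1
    · rw [chg_bit hl, rs_bit_pos hT]
      exact (hrt.2 j).2 o ho
  · rw [hts j hT]
    exact ⟨zero_le, fun o ho => absurd ho (not_lt.2 zero_le)⟩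

theorem chg_supp (b : Ordinal.{0}) (e : Finset (Ordinal.{0} × ℕ)) (c0 : C) (r : Cn C L)
    (j : J) (hT : ¬ Tb b e j) : (chg c0 (rs (Tb b e) r)).len j = 0 := by
  rw [chg_len (fun h => absurd (rs_len_neg hT) h), rs_len_neg hT]

end

theorem high_holds (h : P_EQ) (h1 : P_ACT) (h2 : P_FC) (h3 : P_HS) (h4 : P_DEC) (hk : P_KAP)
    (hs : P_SYSC) (hd : P_DIST) (hh : P_HOMK) (hm : P_MG) : P_HIGH := by
  intro C _ _ L hC
  have SA : SysAx (sysC C L) := hs hk C L hC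
  have EQ : EqF (Cn C L) := h (Cn C L)
  have AC : ActF (Cn C L) := h1 (Cn C L)
  have HF : HsF (Cn C L) (sysC C L) := h3 (Cn C L) (sysC C L) SA
  have MG : MgF C L := hm C L hC
  obtain ⟨_, DEC, DECm⟩ := h4 (Cn C L) (sysC C L) SA
  rintro ⟨ι, U, y⟩ hx
  obtain ⟨a, ha⟩ := HF.liv _ hx
  obtain ⟨b, hab, hιb⟩ := hk.unb ι a
  have hxb := HF.liv_mono a b _ hab ha
  have hyb : ∀ i, Liv (sysC C L) b (y i) := ((liv_mk _ _ _ _ _).1 hxb).2
  have hyH : ∀ i, HS (sysC C L) (y i) := HF.child _ _ _ hx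
  obtain ⟨Kc, ec, hcov, hKc⟩ := hk.stage C L hC.cnt b
  have hrr : ∀ p : Cn C L, rs (Kb b) (rs (Kb b) p) = rs (Kb b) p := fun p => SA.rho_rho b b p le_rfl
  have hle : ∀ p : Cn C L, p ≤ rs (Kb b) p := SA.le_rho b
  refine ⟨{Q : ι → Kc → Prop // HS (sysC C L) (zN b y ec Q)}, fun Q => zN b y ec Q.1,
    fun Q => Q.2, ?_⟩
  intro w p hwH hsubw
  obtain ⟨ew, hew⟩ := HF.supp w hwH
  obtain ⟨ex, hex⟩ := HF.supp _ hx
  obtain ⟨e, he⟩ := SA.dir ew ex
  have hw : ∀ g, g ∈ (sysC C L).fix e → ∀ p, feq (act g w) w p := fun g hg p =>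
    hew g (he g hg).1 p
  have hx' : ∀ g, g ∈ (sysC C L).fix e → ∀ p, feq (act g (.mk ι U y)) (.mk ι U y) p :=
    fun g hg p => hex g (he g hg).2 p
  change Finset (Ordinal.{0} × ℕ) at e
  -- a stronger condition with a large value of `L`
  obtain ⟨c0, hc0, hcN⟩ := hC.cof p.c (e.sup (fun a => a.2))
  have hL : ∀ β n, (β, n) ∈ e → (n : ℕ∞) < L c0 := by
    intro β n hn
    have : n ≤ e.sup (fun a : Ordinal.{0} × ℕ => a.2) :=
      Finset.le_sup (f := fun a : Ordinal.{0} × ℕ => a.2) hn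
    exact lt_of_le_of_lt (by exact_mod_cast this) hcN
  obtain ⟨p', hp'c, hp'p⟩ : ∃ p' : Cn C L, p'.c = c0 ∧ p' ≤ p :=
    ⟨{ p with c := c0, sup := fun j hj => lt_of_lt_of_le (p.sup j hj) (hC.anti _ _ hc0) }, rfl,
      hc0, fun j => ⟨le_rfl, fun _ _ => rfl⟩⟩
  -- the decisions
  have hcard : Cardinal.mk (ι × Kc) < kap b := by
    rw [Cardinal.mk_prod, Cardinal.lift_id, Cardinal.lift_id]
    exact Cardinal.mul_lt_of_lt (hk.reg b).aleph0_le hιb hKc
  obtain ⟨t, ht0, htc, hts, htd⟩ := hd hk C L b e (ι × Kc)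
    (fun ik t => QA b c0 y w (.mk ι U y) ec t ik.1 ik.2) (rs (Tb b e) p') hcard
    (fun j hj => rs_len_neg hj) (fun β n hn => by
      show (n : ℕ∞) < L p'.c
      rw [hp'c]
      exact hL β n hn)
    (fun ik t t' htt' hA => ⟨hA.1, hA.2.1, BB_mono EQ (MG.mono _ _ _ _ _ le_rfl htt') hA.2.2⟩)
  have htc0 : t.c = c0 := by
    rw [htc]
    exact hp'c
  have hts' : ∀ j, ¬ Tb b e j → t.len j = 0 := hts
  have hsup : ∀ j, t.len j ≠ 0 → (j.1, j.2.1) ∈ e := by
    intro j hj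
    by_contra hne
    exact hj (hts' j (fun hT => hne hT.2))
  -- the name is hereditarily symmetric
  have hZ : HS (sysC C L) (zN b y ec (QA b c0 y w (.mk ι U y) ec t)) := by
    have key : ∀ g, g ∈ (sysC C L).fix e → ∀ (y' : Nm (Cn C L)), Liv (sysC C L) b y' → ∀ s,
        fmem y' (zN b y ec (QA b c0 y w (.mk ι U y) ec t)) s →
        fmem (act g y') (zN b y ec (QA b c0 y w (.mk ι U y) ec t)) (g s) :=
      fun g hg y' hy' s hm' => c2 EQ AC SA HF DEC DECm MG b c0 ι U y hyb w Kc ec hcov t e hsup hw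
        hx' g hg y' hy' s hm'
    unfold zN at key ⊢
    rw [hs_mk]
    refine ⟨⟨b, ?_⟩, ⟨e, ?_⟩, hyH⟩
    · rintro i u ⟨k, _, _, hu⟩
      exact hu
    · intro g hg q
      have hgG := SA.fsub e g hg
      have hgi := SA.finv e g hg
      rw [act]
      refine EQ.ext _ _ _ _ _ _ _ ?_ ?_
      · intro i q1 _ hq1
        have e1 : act g (Nm.mk ι (fun i u => ∃ k, QA b c0 y w (.mk ι U y) ec t i k ∧
            ec k = u ∧ rs (Kb b) u = u) y) = Nm.mk ι (fun i u => ∃ k,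
            QA b c0 y w (.mk ι U y) ec t i k ∧ ec k = g.symm u ∧
            rs (Kb b) (g.symm u) = g.symm u) (fun i => act g (y i)) := by rw [act]
        rw [← e1] at hq1
        have e2 : q1 = g (g.symm q1) := (OrderIso.apply_symm_apply g q1).symm
        rw [e2] at hq1 ⊢
        exact key g hg (y i) (hyb i) _ ((AC.fmem g _ _ _).1 hq1)
      · intro i q1 _ hq1
        have e1 : act g (Nm.mk ι (fun i u => ∃ k, QA b c0 y w (.mk ι U y) ec t i k ∧
            ec k = u ∧ rs (Kb b) u = u) y) = Nm.mk ι (fun i u => ∃ k,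
            QA b c0 y w (.mk ι U y) ec t i k ∧ ec k = g.symm u ∧
            rs (Kb b) (g.symm u) = g.symm u) (fun i => act g (y i)) := by rw [act]
        rw [← e1]
        have h5 := key g⁻¹ hgi (y i) (hyb i) q1 hq1
        have h6 := (AC.fmem g _ _ _).2 h5
        have e3 : act g (act g⁻¹ (y i)) = y i := by
          rw [← AC.mul, mul_inv_cancel, AC.one]
        have e4 : g (g⁻¹ q1) = q1 := OrderIso.apply_symm_apply g q1
        rw [e3, e4] at h6
        exact h6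
  -- the final condition
  have hrsT : rs (Tb b e) t = t := rs_fix hts'
  have hq1 : mg (Tb b e) t p' ≤ p' := MG.le_q _ _ _ ht0
  have hq2 : mg (Tb b e) t p' ≤ t := MG.le_u _ _ _ hrsT
  refine ⟨mg (Tb b e) t p', hq1.trans hp'p, ⟨QA b c0 y w (.mk ι U y) ec t, hZ⟩, ?_⟩
  show feq w (zN b y ec (QA b c0 y w (.mk ι U y) ec t)) _
  obtain ⟨κw, Uw, yw⟩ := w
  unfold zN
  refine EQ.ext _ _ _ _ _ _ _ ?_ ?_
  · intro i' q1 hq1' hm1
    rw [fmem_mk]
    intro q' hq'
    have hm2 := hsubw (yw i') (HF.child _ _ _ hwH i') q1 (hq1'.trans (hq1.trans hp'p)) hm1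
    obtain ⟨r, hr, i, _, hf⟩ := (fmem_mk _ _ _ _ _).1 hm2 q' hq'
    have hrt : r ≤ t := hr.trans (hq'.trans (hq1'.trans hq2))
    have hrc : r.c ≤ c0 := by
      rw [← htc0]
      exact hrt.1
    have hBr : BB (.mk κw Uw yw) (.mk ι U y) (y i) r :=
      BB_congr EQ hf ⟨EQ.mmono _ _ _ _ (hr.trans hq') hm1, EQ.mmono _ _ _ _ (hr.trans hq') hm2⟩
    have hB' : BB (.mk κw Uw yw) (.mk ι U y) (y i) (rs (fun j => j.1 < b ∨ (j.1, j.2.1) ∈ e) r) := by
      have key : ∀ φ, Fc (HS (sysC C L)) φ (fun m => if m = 0 then y i else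
          if m = 1 then .mk κw Uw yw else .mk ι U y) r → Fc (HS (sysC C L)) φ
          (fun m => if m = 0 then y i else if m = 1 then .mk κw Uw yw else .mk ι U y)
          (rs (fun j => j.1 < b ∨ (j.1, j.2.1) ∈ e) r) := by
        intro φ
        refine hh C L hC _ φ _ r ?_
        rintro m g ⟨z, hz1, hz2, hz3⟩ q
        have hgfix : g ∈ (sysC C L).fix e := ⟨z, hz1, fun j hj o => hz2 j (Or.inr hj) o, hz3⟩
        by_cases hm0 : m = 0
        · simp only [hm0, if_true]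
          rw [HF.fix b g (fun u hu => ?_) (y i) (hyb i)]
          · exact EQ.refl _ _
          · rw [hz3]
            exact fl_fix (K := Kb b) (fun j hj o => hz2 j (Or.inl hj) o) hu
        · by_cases hm1 : m = 1
          · simp only [hm1, if_true, one_ne_zero, if_false]
            exact hw g hgfix q
          · simp only [hm0, hm1, if_false]
            exact hx' g hgfix q
      exact ⟨key (.mem 0 1) hBr.1, key (.mem 0 2) hBr.2⟩
    obtain ⟨k, hkr⟩ := hcov (rs (Kb b) r) (hrr r)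
    have hQ' : QA b c0 y (.mk κw Uw yw) (.mk ι U y) ec (chg c0 (rs (Tb b e) r)) i k := by
      refine ⟨?_, ?_, ?_⟩
      · rw [hkr]
        exact hrr r
      · rw [hkr]
        exact hrc
      · rw [hkr, mg_eq hC b e c0 r hrc hL]
        exact hB'
    have hQ : QA b c0 y (.mk κw Uw yw) (.mk ι U y) ec t i k := by
      rcases htd (i, k) with h5 | h5
      · exact h5
      · exact absurd hQ' (h5 _ (chg_le b e c0 r t hrt htc0 hts' hL)
          (by rw [chg_c]; exact hp'c.symm) (fun j hj => chg_supp b e c0 r j hj))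
    exact ⟨r, hr, i, ⟨rs (Kb b) r, ⟨k, hQ, hkr, hrr r⟩, hle r⟩, hf⟩
  · intro i q1 hq1' hm1
    refine EQ.mdense _ _ _ (fun q' hq' => ?_)
    obtain ⟨r, hr, i', ⟨u, ⟨k, hQ, hku, hu⟩, hru⟩, hf⟩ := (fmem_mk _ _ _ _ _).1 hm1 q' hq'
    have hrt : r ≤ t := hr.trans (hq'.trans (hq1'.trans hq2))
    have hre : r ≤ ec k := by
      rw [hku]
      exact hru
    have hB : BB (.mk κw Uw yw) (.mk ι U y) (y i') r := BB_mono EQ (MG.le_of _ _ _ _ hre hrt) hQ.2.2
    exact ⟨r, hr, (BB_congr EQ (EQ.symm _ _ _ hf) hB).1⟩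

end Pool.Agent.W477.GM.W856High
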